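import Pool.Agent.H41.CO.Defs

set_option autoImplicit false
set_option linter.unusedVariables false
set_option linter.unusedSectionVars false

/-!
# Cycle odd-covers: the remaining graph (S_XDEG)
-/

namespace Pool.Agent.H703.CO

open Equiv Pool.Agent.H41.CO Finset

section

variable {V I : Type} [Fintype V] [DecidableEq V] [Fintype I]

theorem zm2 (a : ZMod 2) : a = 0 ∨ a = 1 := by
  fin_cases a
  · exact Or.inl rfl
  · exact Or.inr rfl

theorem add_self2 (a : ZMod 2) : a + a = 0 := by
  rcases zm2 a with h | h <;> rw [h] <;> decide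

theorem vec_symm (σ : Perm V) (u v : V) : vec σ u v = vec σ v u := by
  unfold vec
  exact add_comm _ _

theorem vec_diag (σ : Perm V) (v : V) : vec σ v v = 0 := by
  unfold vec
  exact add_self2 _

theorem adj_symm (G : SimpleGraph V) (u v : V) : adj G u v = adj G v u := by
  unfold adj
  rw [G.adj_comm]

theorem adj_diag (G : SimpleGraph V) (v : V) : adj G v v = 0 := by
  unfold adj
  rw [if_neg (G.loopless.irrefl v)]

theorem sum_vec (σ : Perm V) (v : V) : ∑ w, vec σ v w = 0 := by
  unfold vec
  rw [Finset.sum_add_distrib, Finset.sum_ite_eq]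
  have h1 : ∑ w, (if σ w = v then (1 : ZMod 2) else 0) = 1 := by
    have h2 : ∀ w, (if σ w = v then (1 : ZMod 2) else 0) = if σ.symm v = w then 1 else 0 := by
      intro w
      by_cases h : σ w = v
      · rw [if_pos h, if_pos (by rw [← h, Equiv.symm_apply_apply])]
      · rw [if_neg h, if_neg (fun h' => h (by rw [← h', Equiv.apply_symm_apply]))]
    rw [Finset.sum_congr rfl fun w _ => h2 w, Finset.sum_ite_eq, if_pos (Finset.mem_univ _)]
  rw [h1, if_pos (Finset.mem_univ _)]
  exact add_self2 1

/-- the neighbours modulo two -/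
theorem sum_ind {p : V → Prop} [DecidablePred p] :
    ∑ w, (if p w then (1 : ZMod 2) else 0) = (({w | p w}.ncard : ℕ) : ZMod 2) := by
  have h1 : ({w | p w} : Set V) = ((Finset.univ.filter p : Finset V) : Set V) := by
    ext w
    simp
  rw [h1, Set.ncard_coe_finset, Finset.card_eq_sum_ones, Finset.sum_filter]
  push_cast
  rfl

theorem sum_adj (G : SimpleGraph V) (v : V) :
    ∑ w, adj G v w = (({w | G.Adj v w}.ncard : ℕ) : ZMod 2) := by
  classical
  unfold adj
  rw [← sum_ind]

end

theorem xdeg : S_XDEG := by
  intro V I _ _ _ G A A0 σ τ P R hG hO hA0 hP hA hσ hτ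
  classical
  let s : V → V → ZMod 2 := fun u v => adj G u v + ∑ i, vec (σ i) u v
  have hs_symm : ∀ u v, s u v = s v u := fun u v => by
    show adj G u v + ∑ i, vec (σ i) u v = adj G v u + ∑ i, vec (σ i) v u
    rw [adj_symm G u v, Finset.sum_congr rfl fun i _ => vec_symm (σ i) u v]
  have hs_diag : ∀ v, s v v = 0 := fun v => by
    show adj G v v + ∑ i, vec (σ i) v v = 0
    rw [adj_diag, Finset.sum_congr rfl fun i _ => vec_diag (σ i) v, Finset.sum_const_zero, add_zero]
  let X : SimpleGraph V :=
    { Adj := fun u v => s u v = 1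
      symm := ⟨fun u v h => by
        show s v u = 1
        rw [← hs_symm]
        exact h⟩
      loopless := ⟨fun v h => by
        have h' : s v v = 1 := h
        rw [hs_diag] at h'
        exact absurd h' (by decide)⟩ }
  have hX : ∀ u v, adj X u v = s u v := by
    intro u v
    unfold adj
    by_cases h : X.Adj u v
    · rw [if_pos h]
      exact (show s u v = 1 from h).symm
    · rw [if_neg h]
      rcases zm2 (s u v) with h1 | h1
      · exact h1.symm
      · exact absurd h1 h
  -- the arcs
  have hno : ∀ v, (v, v) ∉ A := fun v h => hO.2 v v h h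
  have harc : ∀ u v, ∑ i, (if P i u ∧ τ i u = v then (1 : ZMod 2) else 0) =
      if (u, v) ∈ A ∧ (u, v) ∉ A0 then 1 else 0 := by
    intro u v
    by_cases h : (u, v) ∈ A ∧ (u, v) ∉ A0
    · rw [if_pos h]
      obtain ⟨i, hi, huniq⟩ := hA (u, v) h.1 h.2
      rw [Finset.sum_eq_single i]
      · rw [if_pos hi]
      · intro j _ hj
        rw [if_neg fun h' => hj (huniq j h')]
      · intro h'
        exact absurd (Finset.mem_univ i) h'
    · rw [if_neg h]
      refine Finset.sum_eq_zero fun i _ => ?_
      rw [if_neg]
      rintro ⟨h1, h2⟩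
      apply h
      rw [← h2]
      exact hP i u h1
  have hadj : ∀ u v, adj G u v = (if (u, v) ∈ A then (1 : ZMod 2) else 0) +
      if (v, u) ∈ A then 1 else 0 := by
    intro u v
    unfold adj
    by_cases h1 : (u, v) ∈ A
    · rw [if_pos h1, if_neg (hO.2 u v h1), if_pos ((hO.1 u v).2 (Or.inl h1)), add_zero]
    · by_cases h2 : (v, u) ∈ A
      · rw [if_neg h1, if_pos h2, if_pos ((hO.1 u v).2 (Or.inr h2)), zero_add]
      · rw [if_neg h1, if_neg h2, if_neg (fun h => ((hO.1 u v).1 h).elim h1 h2), add_zero]
  have hsplit : ∀ a : V × V, (if a ∈ A then (1 : ZMod 2) else 0) =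
      (if a ∈ A0 then 1 else 0) + if a ∈ A ∧ a ∉ A0 then 1 else 0 := by
    intro a
    by_cases h0 : a ∈ A0
    · rw [if_pos h0, if_pos (hA0 h0), if_neg (fun h => h.2 h0), add_zero]
    · by_cases h1 : a ∈ A
      · rw [if_pos h1, if_neg h0, if_pos ⟨h1, h0⟩, zero_add]
      · rw [if_neg h1, if_neg h0, if_neg (fun h => h1 h.1), add_zero]
  have hs : ∀ u v, s u v = (if (u, v) ∈ A0 then (1 : ZMod 2) else 0) +
      (if (v, u) ∈ A0 then 1 else 0) +
      ∑ i, (((if P i u ∧ τ i u = v then (1 : ZMod 2) else 0) + if σ i u = v then 1 else 0) +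
        ((if P i v ∧ τ i v = u then (1 : ZMod 2) else 0) + if σ i v = u then 1 else 0)) := by
    intro u v
    show adj G u v + ∑ i, vec (σ i) u v = _
    rw [hadj, hsplit (u, v), hsplit (v, u), ← harc u v, ← harc v u]
    unfold vec
    simp only [Finset.sum_add_distrib]
    ring
  refine ⟨X, ?_, ?_, ?_⟩
  · intro v
    have h1 : (({w | X.Adj v w}.ncard : ℕ) : ZMod 2) = 0 := by
      rw [← sum_adj, Finset.sum_congr rfl fun w _ => hX v w]
      show ∑ w, (adj G v w + ∑ i, vec (σ i) v w) = 0
      rw [Finset.sum_add_distrib, Finset.sum_comm, sum_adj,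
        Finset.sum_congr rfl fun i _ => sum_vec (σ i) v, Finset.sum_const_zero, add_zero]
      exact (ZMod.natCast_eq_zero_iff_even).2 (hG v)
    exact (ZMod.natCast_eq_zero_iff_even).1 h1
  · intro u v _
    rw [hX]
    show adj G u v = ∑ i, vec (σ i) u v + (adj G u v + ∑ i, vec (σ i) u v)
    have h1 := add_self2 (∑ i, vec (σ i) u v)
    linear_combination -h1
  · intro v
    let T1 : Finset V := (A0.filter fun a => a.1 = v).image Prod.snd
    let T2 : Finset V := (A0.filter fun a => a.2 = v).image Prod.fst
    let T3 : Finset V := (Finset.univ.filter fun i => v ∈ R i).biUnion fun i => {σ i v, τ i v}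
    let T4 : Finset V := (Finset.univ.filter fun i => (τ i).symm v ∈ R i).biUnion
      fun i => {(σ i).symm v, (τ i).symm v}
    have hsub : {w | X.Adj v w} ⊆ ((((T1 ∪ T2) ∪ T3) ∪ T4 : Finset V) : Set V) := by
      intro w hw
      have hw1 : s v w = 1 := hw
      have hwv : w ≠ v := fun h => by
        rw [h] at hw
        exact X.loopless.irrefl v hw
      by_contra hcon
      rw [Finset.mem_coe, Finset.mem_union, Finset.mem_union, Finset.mem_union] at hcon
      push Not at hcon
      obtain ⟨⟨⟨h1, h2⟩, h3⟩, h4⟩ := hcon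
      have h1' : (v, w) ∉ A0 := fun h => h1 (Finset.mem_image.2
        ⟨(v, w), Finset.mem_filter.2 ⟨h, rfl⟩, rfl⟩)
      have h2' : (w, v) ∉ A0 := fun h => h2 (Finset.mem_image.2
        ⟨(w, v), Finset.mem_filter.2 ⟨h, rfl⟩, rfl⟩)
      have h3' : ∀ i, v ∈ R i → w ≠ σ i v ∧ w ≠ τ i v := by
        intro i hi
        constructor
        · intro h
          exact h3 (Finset.mem_biUnion.2 ⟨i, Finset.mem_filter.2 ⟨Finset.mem_univ _, hi⟩, by
            rw [h]; exact Finset.mem_insert_self _ _⟩)
        · intro h
          exact h3 (Finset.mem_biUnion.2 ⟨i, Finset.mem_filter.2 ⟨Finset.mem_univ _, hi⟩, by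
            rw [h]; exact Finset.mem_insert_of_mem (Finset.mem_singleton_self _)⟩)
      have h4' : ∀ i, (τ i).symm v ∈ R i → w ≠ (σ i).symm v ∧ w ≠ (τ i).symm v := by
        intro i hi
        constructor
        · intro h
          exact h4 (Finset.mem_biUnion.2 ⟨i, Finset.mem_filter.2 ⟨Finset.mem_univ _, hi⟩, by
            rw [h]; exact Finset.mem_insert_self _ _⟩)
        · intro h
          exact h4 (Finset.mem_biUnion.2 ⟨i, Finset.mem_filter.2 ⟨Finset.mem_univ _, hi⟩, by
            rw [h]; exact Finset.mem_insert_of_mem (Finset.mem_singleton_self _)⟩)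
      have hz : s v w = 0 := by
        rw [hs, if_neg h1', if_neg h2', add_zero, zero_add]
        refine Finset.sum_eq_zero fun i _ => ?_
        have e1 : (if P i v ∧ τ i v = w then (1 : ZMod 2) else 0) +
            (if σ i v = w then 1 else 0) = 0 := by
          by_cases hv : v ∈ R i
          · obtain ⟨k1, k2⟩ := h3' i hv
            rw [if_neg fun h => k2 h.2.symm, if_neg fun h => k1 h.symm, add_zero]
          · rw [hσ i v hv]
            by_cases hw2 : τ i v = w
            · have hPv : P i v := by
                by_contra hn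
                exact hv (hτ i v (by rw [hw2]; exact hwv) hn)
              rw [if_pos ⟨hPv, hw2⟩, if_pos hw2]
              exact add_self2 1
            · rw [if_neg fun h => hw2 h.2, if_neg hw2, add_zero]
        have e2 : (if P i w ∧ τ i w = v then (1 : ZMod 2) else 0) +
            (if σ i w = v then 1 else 0) = 0 := by
          by_cases hv : (τ i).symm v ∈ R i
          · obtain ⟨k1, k2⟩ := h4' i hv
            rw [if_neg fun h => k2 (by rw [← h.2, Equiv.symm_apply_apply]),
              if_neg fun h => k1 (by rw [← h, Equiv.symm_apply_apply]), add_zero]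
          · have hσv : σ i ((τ i).symm v) = v := by
              rw [hσ i _ hv, Equiv.apply_symm_apply]
            by_cases hw2 : w = (τ i).symm v
            · have hτw : τ i w = v := by rw [hw2, Equiv.apply_symm_apply]
              have hσw : σ i w = v := by rw [hw2, hσv]
              have hPw : P i w := by
                by_contra hn
                have h5 := hτ i w (by rw [hτw]; exact hwv.symm) hn
                rw [hw2] at h5
                exact hv h5
              rw [if_pos ⟨hPw, hτw⟩, if_pos hσw]
              exact add_self2 1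
            · have hτw : ¬ τ i w = v := fun h => hw2 (by rw [← h, Equiv.symm_apply_apply])
              have hσw : ¬ σ i w = v := fun h => hw2 ((σ i).injective (by rw [h, hσv]))
              rw [if_neg fun h => hτw h.2, if_neg hσw, add_zero]
        rw [e1, e2, add_zero]
      rw [hz] at hw1
      exact absurd hw1 (by decide)
    have hn1 : ∀ (p : I → Prop) [DecidablePred p],
        {i | p i}.ncard = (Finset.univ.filter p).card := by
      intro p _
      have h1 : ({i | p i} : Set I) = ((Finset.univ.filter p : Finset I) : Set I) := by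
        ext i
        simp
      rw [h1, Set.ncard_coe_finset]
    have hc1 : T1.card ≤ out A0 v := by
      unfold out
      exact Finset.card_image_le
    have hc2 : T2.card ≤ inn A0 v := by
      unfold inn
      exact Finset.card_image_le
    have hc3 : T3.card ≤ {i | v ∈ R i}.ncard * 2 := by
      rw [hn1 fun i => v ∈ R i]
      exact Finset.card_biUnion_le_card_mul (Finset.univ.filter fun i => v ∈ R i)
        (fun i => ({σ i v, τ i v} : Finset V)) 2 fun i _ => Finset.card_le_two
    have hc4 : T4.card ≤ {i | (τ i).symm v ∈ R i}.ncard * 2 := by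
      rw [hn1 fun i => (τ i).symm v ∈ R i]
      exact Finset.card_biUnion_le_card_mul (Finset.univ.filter fun i => (τ i).symm v ∈ R i)
        (fun i => ({(σ i).symm v, (τ i).symm v} : Finset V)) 2 fun i _ => Finset.card_le_two
    have h1 : {w | X.Adj v w}.ncard ≤ (((T1 ∪ T2) ∪ T3) ∪ T4).card := by
      rw [← Set.ncard_coe_finset]
      exact Set.ncard_le_ncard hsub (Finset.finite_toSet _)
    have h2 := Finset.card_union_le ((T1 ∪ T2) ∪ T3) T4
    have h3 := Finset.card_union_le (T1 ∪ T2) T3
    have h4 := Finset.card_union_le T1 T2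
    omega

end Pool.Agent.H703.CO
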